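import Pool.Agent.H5.Mal.Cyc
import Pool.Agent.H5.Mal.Planar

set_option autoImplicit false

/-!
# MP_b7b26a_co, Q1: disproof

Q1 asks whether for every 4-connected planar graph `G` on `n` vertices, every vertex `v` and every
`l ∈ {3} ∪ {5, ..., n - 1}` the graph `G - v` contains an `l`-cycle. The answer is no: there are a
4-connected planar graph `G` on 69 vertices and a vertex `v` such that `G - v` has no 7-cycle.

How the definitions match the problem file: `FourConnected` is the definition there (at least 5
vertices, connected after deleting any set of at most 3 vertices); `IsPlanar` says that the graph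
can be drawn in the plane with vertices as distinct points and edges as simple arcs which do not pass
through vertices and do not cross; `HasCycle H l` says that `H` has a cycle with exactly `l` edges
(Mathlib's `Walk.IsCycle`); `G - v` is the induced subgraph on `{v}ᶜ`.

The graph. Take the `4 × 4` grid, delete its four corners and join the two neighbours of each deleted
corner; this gives a planar graph `Z` with 4 inner nodes of degree 4 and 8 outer nodes of degree 3,
whose inner faces are quadrilaterals apart from 4 triangles. Replace each inner node by a wheel with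
4 spokes (5 vertices, each rim vertex carrying one of the four edges of `Z`) and each outer node by a
cluster of 6 vertices (a wheel with 4 spokes and one more vertex joined to two consecutive rim
vertices), and join two vertices of each outer cluster to the new vertex `v` outside. A cycle of
`G - v` inside a cluster has length at most 6, and a cycle that leaves a cluster has length at
least 8.

The kernel checks: the drawing (integer coordinates of a straight-line drawing, all pairs of edges),
4-connectivity (for each of 4 roots and each vertex, 4 internally disjoint paths), and the absence of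
7-cycles (exhaustive search).
-/

namespace Pool.Agent.Results.MP_b7b26a_co.NoSevenCycle

/-- `G` is 4-connected: it has at least 5 vertices and stays connected after deleting any set of at
most 3 vertices. -/
def FourConnected {V : Type} [Fintype V] (G : SimpleGraph V) : Prop :=
  5 ≤ Fintype.card V ∧
    ∀ S : Finset V, S.card ≤ 3 → (G.induce ((S : Set V)ᶜ)).Connected

/-- `G` is planar: there are distinct points `f v` of the plane for the vertices `v`, and for each
edge `uv` a simple arc `γ u v` from `f u` to `f v` (with `γ v u` its reverse), such that the interior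
of an arc contains no vertex point and the interiors of the arcs of two different edges are
disjoint. -/
def IsPlanar {V : Type} (G : SimpleGraph V) : Prop :=
  ∃ (f : V → ℝ × ℝ) (γ : V → V → C(unitInterval, ℝ × ℝ)),
    Function.Injective f ∧
    (∀ u v, G.Adj u v →
      γ u v 0 = f u ∧ γ u v 1 = f v ∧ Function.Injective (γ u v) ∧
      (∀ t, γ v u t = γ u v (unitInterval.symm t)) ∧
      (∀ t w, t ≠ 0 → t ≠ 1 → γ u v t ≠ f w)) ∧
    (∀ (u v x y : V) (t r : unitInterval), G.Adj u v → G.Adj x y →
      s(u, v) ≠ s(x, y) → t ≠ 0 → t ≠ 1 → r ≠ 0 → r ≠ 1 → γ u v t ≠ γ x y r)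

/-- `G` contains a cycle with exactly `l` edges. -/
def HasCycle {V : Type} (G : SimpleGraph V) (l : ℕ) : Prop :=
  ∃ (u : V) (c : G.Walk u u), c.IsCycle ∧ c.length = l

/-- The statement of Q1: for every 4-connected planar graph `G` on `n` vertices, every vertex `v` and
every `l ∈ {3} ∪ {5, ..., n - 1}`, the graph `G - v` contains an `l`-cycle. -/
def Question1 : Prop :=
  ∀ (V : Type) [Fintype V] (G : SimpleGraph V), FourConnected G → IsPlanar G →
    ∀ (v : V) (l : ℕ), (l = 3 ∨ (5 ≤ l ∧ l ≤ Fintype.card V - 1)) →
      HasCycle (G.induce ({v}ᶜ : Set V)) l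

/-- There are a 4-connected planar graph on 69 vertices and a vertex `v` of it whose deletion leaves a
graph without cycles of length 7; hence the answer to Q1 is negative. -/
theorem result :
    (∃ (G : SimpleGraph (Fin 69)) (v : Fin 69), FourConnected G ∧ IsPlanar G ∧
      ¬ HasCycle (G.induce ({v}ᶜ : Set (Fin 69))) 7) ∧ ¬ Question1 := by
  have key : FourConnected Pool.Agent.H5.Mal.G ∧ IsPlanar Pool.Agent.H5.Mal.G ∧
      ¬ HasCycle (Pool.Agent.H5.Mal.G.induce ({0}ᶜ : Set (Fin 69))) 7 := by
    refine ⟨⟨by simp, Pool.Agent.H5.Mal.G_conn⟩, Pool.Agent.H5.Mal.G_planar, ?_⟩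
    rintro ⟨u, c, hc, hl⟩
    let φ : Pool.Agent.H5.Mal.G.induce ({0}ᶜ : Set (Fin 69)) ↪g Pool.Agent.H5.Mal.G :=
      SimpleGraph.Embedding.induce _
    refine Pool.Agent.H5.Mal.no_cycle _ (c.map φ.toHom) ?_ ?_ ?_
    · exact hc.map φ.injective
    · rw [SimpleGraph.Walk.length_map, hl]
    · intro x hx
      rw [SimpleGraph.Walk.support_map] at hx
      obtain ⟨y, _, rfl⟩ := List.mem_map.mp hx
      exact y.2
  refine ⟨⟨_, _, key⟩, ?_⟩
  intro hQ
  exact key.2.2 (hQ (Fin 69) _ key.1 key.2.1 0 7 (Or.inr ⟨by norm_num, by simp⟩))

end Pool.Agent.Results.MP_b7b26a_co.NoSevenCycle
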